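import Pool.Agent.TH322.SQ.Gs

/-!
# Random scalars: the average number of real roots of a sum of squares is at most linear

Let `f_1, ..., f_s` be arbitrary real polynomials, let `m` be the number of the exponents which occur in them
(it is at most the support-sum `∑ |f_i|₀`), let `γ_i ≥ 0` be arbitrary, and let `c_i` be independent standard
Cauchy variables.  Then `∑ γ_i c_i f_i ^ 2` has on average at most `32 m` distinct real roots.  For independent
standard Gaussian variables `c_i` the average is at most `9 s^{1/4} m`.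

So the inequality of the question holds on average over the scalars, for any choice of the squares and of the
scales `γ_i`, with the constants `C_s = 32` (Cauchy scalars) and `C_s = 9 s^{1/4}` (Gaussian scalars).

Proof.  For each `x` let `w(x)` be the vector of the `f_i(x)`, normalized to have length `1`.

* For a standard Gaussian vector `a` the polynomial `∑ a_i f_i` has at most `2 m` real roots by Descartes' rule
  of signs, and the probability that `⟨a, w(x)⟩` and `⟨a, w(y)⟩` have different signs is
  `arccos ⟨w(x), w(y)⟩ / π ≥ |w(x) - w(y)| / π`.  Hence `∑ |w(x_{j+1}) - w(x_j)| ≤ 2 π m` along any increasing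
  sequence of points.
* A Cauchy variable is a ratio `g / h` of two independent standard Gaussian variables.  Given `h`, the
  probability that `∑ (g_i / h_i) w_i²` and `∑ (g_i / h_i) w'_i²` have different signs is at most `√Z` with
  `Z = ∑ (w_i² - w'_i²)² h_i⁻² / ∑ Q_i² h_i⁻²`, `Q_i = w_i² + w'_i²`.  The main point is that the expectation of
  `h_i⁻² / ∑ Q_k² h_k⁻²` is `O(1 / (Q_i ∑ Q_k))`: the weights `Q_k² h_k⁻²` are so heavy-tailed that their sum is
  of the size of its largest term, and the `i`-th is the largest one with a probability comparable to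
  `Q_i / ∑ Q_k`.  As `(w_i² - w'_i²)² ≤ 2 (w_i - w'_i)² Q_i`, the expectation of `Z` is `O(|w - w'|²)`.
* For Gaussian scalars the same holds with `h_i = 1`; here the numerator of `Z` is at most
  `2 |w - w'|² √(∑ Q_i²)` and `√(∑ Q_i²) ≥ 2 s^{-1/2}`, so that `√Z ≤ s^{1/4} |w - w'|`.
* So the expected number of sign changes of `∑ c_i f_i²` along a finite sequence is `O(m)` and `O(s^{1/4} m)`.
  For almost all `c` all the roots which are not roots of a fixed `f_i` are simple.
-/

set_option autoImplicit false

open Polynomial MeasureTheory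
open scoped ENNReal

namespace Pool.Agent.Results.MP_5180ba_lc.CauchyScalars

/-- the number of distinct real roots (`0` for the zero polynomial) -/
noncomputable def realRoots (h : ℝ[X]) : ℕ := h.roots.toFinset.card

/-- the exponents of the monomials of the `f i` -/
def exponents {s : ℕ} (f : Fin s → ℝ[X]) : Finset ℕ := Finset.univ.biUnion fun i => (f i).support

/-- `∑ i, γ i * c i * f i ^ 2` -/
noncomputable def comb {s : ℕ} (γ c : Fin s → ℝ) (f : Fin s → ℝ[X]) : ℝ[X] :=
  ∑ i, C (γ i * c i) * f i ^ 2

/-- the law of `s` independent standard Cauchy variables (with the density `1 / (π (1 + x²))`) -/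
noncomputable def cauchyLaw (s : ℕ) : Measure (Fin s → ℝ) :=
  Measure.pi fun _ => ProbabilityTheory.cauchyMeasure 0 1

/-- the law of `s` independent standard Gaussian variables -/
noncomputable def gaussLaw (s : ℕ) : Measure (Fin s → ℝ) :=
  Measure.pi fun _ => ProbabilityTheory.gaussianReal 0 1

theorem result (s : ℕ) (f : Fin s → ℝ[X]) (γ : Fin s → ℝ) (hγ : ∀ i, 0 ≤ γ i) :
    (exponents f).card ≤ ∑ i, (f i).support.card ∧
    Measurable (fun c => realRoots (comb γ c f)) ∧
    -- Cauchy scalars: the average number of real roots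
    ∫⁻ c, (realRoots (comb γ c f) : ℝ≥0∞) ∂(cauchyLaw s) ≤ 32 * ((exponents f).card : ℝ≥0∞) ∧
    -- Cauchy scalars: the probability that there are many real roots
    (∀ κ : ℝ, 0 < κ → cauchyLaw s {c | κ * (exponents f).card < realRoots (comb γ c f)}
      ≤ ENNReal.ofReal (32 / κ)) ∧
    -- Gaussian scalars: the average number of real roots
    ∫⁻ c, (realRoots (comb γ c f) : ℝ≥0∞) ∂(gaussLaw s)
      ≤ ENNReal.ofReal (9 * √√(s : ℝ)) * ((exponents f).card : ℝ≥0∞) := by
  classical
  set M := exponents f with hM
  set F : Fin s → ℝ[X] := fun i => C √(γ i) * f i with hF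
  have hsupp : ∀ i, (F i).support ⊆ M := by
    intro i m hm
    rw [hF, mem_support_iff, coeff_C_mul] at hm
    rw [hM, exponents, Finset.mem_biUnion]
    exact ⟨i, Finset.mem_univ i, mem_support_iff.2 (right_ne_zero_of_mul hm)⟩
  have hcomb : ∀ c, comb γ c f = Pool.Agent.TH322.SQ.FF F c := by
    intro c
    refine Finset.sum_congr rfl fun i _ => ?_
    rw [hF]
    simp only
    rw [mul_pow, ← C_pow, Real.sq_sqrt (hγ i), ← mul_assoc, ← C_mul, mul_comm (c i)]
  have hmeas : Measurable fun c => realRoots (comb γ c f) := by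
    have h := Pool.Agent.TH322.SQ.nr_meas F
    simp only [hcomb]
    exact h
  have hint : ∫⁻ c, (realRoots (comb γ c f) : ℝ≥0∞) ∂(cauchyLaw s) ≤ 32 * (M.card : ℝ≥0∞) := by
    have h := Pool.Agent.TH322.SQ.exp_le F M hsupp
    simp only [hcomb]
    exact h
  have hint2 : ∫⁻ c, (realRoots (comb γ c f) : ℝ≥0∞) ∂(gaussLaw s)
      ≤ ENNReal.ofReal (9 * √√(s : ℝ)) * (M.card : ℝ≥0∞) := by
    have h := Pool.Agent.TH322.SQ.exp_le_g F M hsupp
    simp only [hcomb]
    exact h
  refine ⟨Finset.card_biUnion_le, hmeas, hint, fun κ hκ => ?_, hint2⟩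
  rcases Nat.eq_zero_or_pos M.card with h0 | h0
  · have h2 : ∀ i, f i = 0 := by
      intro i
      rw [← support_eq_empty]
      have h3 : (f i).support ⊆ M := fun m hm => by
        rw [hM, exponents, Finset.mem_biUnion]
        exact ⟨i, Finset.mem_univ i, hm⟩
      have h4 := Finset.card_le_card h3
      rw [h0] at h4
      exact Finset.card_eq_zero.1 (Nat.le_zero.1 h4)
    have h1 : {c : Fin s → ℝ | κ * (M.card : ℝ) < realRoots (comb γ c f)} = ∅ := by
      ext c
      simp [h0, comb, h2, realRoots]
    rw [h1, measure_empty]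
    exact zero_le
  · have hMc : (0 : ℝ) < M.card := by exact_mod_cast h0
    set ε : ℝ := κ * M.card with hε
    have hε0 : 0 < ε := by positivity
    have hnm : Measurable fun c : Fin s → ℝ => (realRoots (comb γ c f) : ℝ≥0∞) :=
      (measurable_from_top (f := fun k : ℕ => (k : ℝ≥0∞))).comp hmeas
    have h1 : {c : Fin s → ℝ | κ * (M.card : ℝ) < realRoots (comb γ c f)}
        ⊆ {c | ENNReal.ofReal ε ≤ (realRoots (comb γ c f) : ℝ≥0∞)} := by
      intro c hc
      have hc' : κ * (M.card : ℝ) < realRoots (comb γ c f) := hc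
      show ENNReal.ofReal ε ≤ (realRoots (comb γ c f) : ℝ≥0∞)
      rw [← ENNReal.ofReal_natCast]
      exact ENNReal.ofReal_le_ofReal hc'.le
    have h2 := mul_meas_ge_le_lintegral (μ := cauchyLaw s) hnm (ENNReal.ofReal ε)
    have h3 : ENNReal.ofReal ε * cauchyLaw s {c : Fin s → ℝ | κ * (M.card : ℝ)
        < realRoots (comb γ c f)} ≤ 32 * (M.card : ℝ≥0∞) :=
      (mul_le_mul_right (measure_mono h1) _).trans (h2.trans hint)
    have h4 : cauchyLaw s {c : Fin s → ℝ | κ * (M.card : ℝ) < realRoots (comb γ c f)}
        ≤ 32 * (M.card : ℝ≥0∞) / ENNReal.ofReal ε := by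
      rw [ENNReal.le_div_iff_mul_le (Or.inl (by simpa using hε0)) (Or.inl ENNReal.ofReal_ne_top),
        mul_comm]
      exact h3
    refine h4.trans (le_of_eq ?_)
    have h5 : (32 * (M.card : ℝ≥0∞)) = ENNReal.ofReal (32 * M.card) := by
      rw [ENNReal.ofReal_mul (by norm_num), ENNReal.ofReal_natCast]
      norm_num
    rw [h5, ← ENNReal.ofReal_div_of_pos hε0]
    congr 1
    rw [hε]
    field_simp

end Pool.Agent.Results.MP_5180ba_lc.CauchyScalars
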