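import Pool.Agent.TH866.TauThree

set_option autoImplicit false

namespace Pool.Agent.Results.MP_5180ba_lc.ConstantGrows

open Polynomial Finset

/-- **The constant must grow at least like `s ^ (2/7)`, for arbitrarily long polynomials.** For
`s ≥ 2`, `T ≥ 4` and every natural number `q` with `q ^ 7 ≤ s` and `q ^ 4 ≤ T` there is a nonzero
`f = ∑ c i * f i ^ 2` with `s` squares, in which every `f i` has at most `T` monomials, with at least
`s T q ^ 2 / 105300` distinct real roots. -/
theorem result (s T q : ℕ) (hs : 2 ≤ s) (hT : 4 ≤ T) (h7 : q ^ 7 ≤ s) (h4 : q ^ 4 ≤ T) :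
    ∃ (c : Fin s → ℝ) (f : Fin s → ℝ[X]), (∀ i, (f i).support.card ≤ T) ∧
      (∑ i, c i • f i ^ 2) ≠ 0 ∧
      s * T * q ^ 2 ≤ 105300 * (∑ i, c i • f i ^ 2).roots.toFinset.card := by
  classical
  obtain ⟨q', hq1, hqq, hq7, hq4⟩ := Pool.Agent.TH866.TauGlue.half_param q (s / 2) (T / 2)
    (by omega) (by omega) (by omega) (by omega)
  obtain ⟨r, hgood, hr⟩ := Pool.Agent.TH866.TauGlue.range_two (s / 2) (T / 2) q' (by omega) hq7 hq4
  have hr1 : 1 ≤ r := by
    by_contra h0
    have h0 : r = 0 := by omega
    rw [h0, mul_zero] at hr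
    have h1 : 0 < s / 2 * (T / 2) * q' ^ 2 := by
      have : 0 < s / 2 := by omega
      have : 0 < T / 2 := by omega
      positivity
    omega
  obtain ⟨F, h1, h2, h3⟩ := hgood.rep hr1
  -- the squares
  have hprod : ∀ i, ∏ j, F i j = F i 0 * F i 1 := fun i => Fin.prod_univ_two _
  let c0 : Fin (s / 2) ⊕ Fin (s / 2) → ℝ := Sum.elim (fun _ => 1 / 4) (fun _ => -(1 / 4))
  let f0 : Fin (s / 2) ⊕ Fin (s / 2) → ℝ[X] :=
    Sum.elim (fun i => F i 0 + F i 1) (fun i => F i 0 - F i 1)
  obtain ⟨e⟩ : Nonempty (Fin (s / 2) ⊕ Fin (s / 2) ↪ Fin s) :=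
    Function.Embedding.nonempty_of_card_le (by simp; omega)
  have hsum : ∑ i, Function.extend e c0 0 i • Function.extend e f0 0 i ^ 2 =
      ∑ i, ∏ j, F i j := by
    have hA : ∑ x, c0 x • f0 x ^ 2 =
        ∑ i, Function.extend e c0 0 i • Function.extend e f0 0 i ^ 2 := by
      apply Fintype.sum_of_injective e e.injective
      · intro i hi
        rw [Function.extend_apply' _ _ _ (by simpa using hi)]
        simp
      · intro i
        rw [e.injective.extend_apply, e.injective.extend_apply]
    rw [← hA, Fintype.sum_sum_type, ← Finset.sum_add_distrib]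
    apply Finset.sum_congr rfl
    intro i _
    rw [hprod]
    simp only [c0, f0, Sum.elim_inl, Sum.elim_inr, smul_eq_C_mul]
    have hC : (C (-(1 / 4) : ℝ) : ℝ[X]) = - C (1 / 4) := by rw [C_neg]
    have hC4 : (C (1 / 4 : ℝ) : ℝ[X]) * 4 = 1 := by
      have : (4 : ℝ[X]) = C 4 := (map_ofNat C 4).symm
      rw [this, ← C_mul]
      norm_num
    rw [hC]
    linear_combination (F i 0 * F i 1) * hC4
  refine ⟨Function.extend e c0 0, Function.extend e f0 0, ?_, ?_, ?_⟩
  · intro i
    by_cases h : ∃ x, e x = i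
    · obtain ⟨x, rfl⟩ := h
      rw [e.injective.extend_apply]
      rcases x with x | x
      · have h5 : (F x 0 + F x 1).support.card ≤ (F x 0).support.card + (F x 1).support.card :=
          (Finset.card_le_card support_add).trans (Finset.card_union_le _ _)
        have h6 := h1 x 0
        have h7 := h1 x 1
        simp only [f0, Sum.elim_inl]
        omega
      · have h5 : (F x 0 - F x 1).support.card ≤ (F x 0).support.card + (F x 1).support.card := by
          rw [sub_eq_add_neg]
          refine (Finset.card_le_card support_add).trans ((Finset.card_union_le _ _).trans ?_)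
          rw [support_neg]
        have h6 := h1 x 0
        have h7 := h1 x 1
        simp only [f0, Sum.elim_inr]
        omega
    · rw [Function.extend_apply' _ _ _ h]
      simp
  · rw [hsum]
    exact h2
  · rw [hsum]
    have hs3 : s ≤ 3 * (s / 2) := by omega
    have hT3 : T ≤ 3 * (T / 2) := by omega
    calc s * T * q ^ 2 ≤ (3 * (s / 2)) * (3 * (T / 2)) * (3 * q') ^ 2 := by gcongr
      _ = 81 * (s / 2 * (T / 2) * q' ^ 2) := by ring
      _ ≤ 81 * (1300 * r) := by gcongr
      _ = 105300 * r := by ring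
      _ ≤ 105300 * (∑ i, ∏ j, F i j).roots.toFinset.card := by gcongr

end Pool.Agent.Results.MP_5180ba_lc.ConstantGrows
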