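import Pool.Agent.TH322.SQ.TV

/-!
# Real roots of sums of squares: one random scalar, and robust sign changes

Let `f = ∑ c i * f i ^ 2` be any representation, let `P` be the sum of the terms with `c i > 0` and `-N` the
sum of the terms with `c i < 0`, so that `f = P - N`, and let `m` be the number of the exponents which occur
in the `f i`; it is at most the support-sum `S = ∑ |f i|₀`.  For `t ≥ 0` let `f_t = P - t² N`: the scalars of
the negative squares are multiplied by one common factor.

1. On average over the one parameter `t` (with respect to the Cauchy distribution) `f_t` has at most `10 m`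
   distinct real roots.
2. For every `κ > 0` the polynomial `f_t` has at most `κ m` real roots, except for `t` in a subset of `[0, T]` of
   measure at most `10 π (1 + T²) / κ`.
3. The total variation over the real line of the function `arctan √(P / N)` is at most `4 π m`.  (The roots of
   `f` are the points where this function has the value `π / 4`.)
4. Robust sign changes: if `x_0 < ... < x_n`, `f(x_j) ≥ δ N(x_j) > 0` for even `j` and `f(x_j) ≤ 0`,
   `N(x_j) > 0` for odd `j`, then `n ≤ 101 m / δ` (`0 < δ ≤ 1`).

So the inequality of the question holds, with a constant which does not depend on the number of squares and with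
`m` in place of `S`, on average over one scalar, and for every `f` if only sign changes of relative size `δ` are
counted.

Proof.  Let `u(x)` and `v(x)` be the vectors of the values `√(c i) f i (x)`, `c i > 0`, and
`√(-c i) f i (x)`, `c i < 0`, so that `P = |u|²`, `N = |v|²`.  Let `a`, `b` be independent standard Gaussian vectors.
For each `x` the probability of `⟨b, v(x)⟩² < ⟨a, u(x)⟩²` is the probability of `τ² N(x) < P(x)`, where `τ` is
the ratio of two independent standard Gaussian variables.  As the events `τ² N(x) < P(x)` form a chain, the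
probability that `(P - τ² N)(x) (P - τ² N)(y) < 0` is at most the probability that exactly one of the events
`⟨b, v⟩² < ⟨a, u⟩²` at `x` and at `y` takes place.  For a finite sequence of points the sum of the latter
probabilities is the expected number of alternations of `D = ⟨a, u⟩² - ⟨b, v⟩²`, and
`D = (⟨a, u⟩ - ⟨b, v⟩) (⟨a, u⟩ + ⟨b, v⟩)` is a product of two polynomials with at most `m` monomials, which has
at most `4 m` real roots by Descartes' rule of signs.
-/

set_option autoImplicit false

open Polynomial MeasureTheory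
open scoped ENNReal

namespace Pool.Agent.Results.MP_5180ba_lc.PencilsOfSquares

/-- the number of distinct real roots (`0` for the zero polynomial) -/
noncomputable def realRoots (h : ℝ[X]) : ℕ := h.roots.toFinset.card

/-- `P`: the sum of the `c i * f i ^ 2` with `c i > 0` -/
noncomputable def posPart {s : ℕ} (c : Fin s → ℝ) (f : Fin s → ℝ[X]) : ℝ[X] :=
  ∑ i, C (max (c i) 0) * f i ^ 2

/-- `N`: the sum of the `-c i * f i ^ 2` with `c i < 0` -/
noncomputable def negPart {s : ℕ} (c : Fin s → ℝ) (f : Fin s → ℝ[X]) : ℝ[X] :=
  ∑ i, C (max (-c i) 0) * f i ^ 2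

/-- `P - t² N` -/
noncomputable def member {s : ℕ} (c : Fin s → ℝ) (f : Fin s → ℝ[X]) (t : ℝ) : ℝ[X] :=
  posPart c f - C (t ^ 2) * negPart c f

/-- the exponents of the monomials of the `f i` -/
def exponents {s : ℕ} (f : Fin s → ℝ[X]) : Finset ℕ := Finset.univ.biUnion fun i => (f i).support

/-- `arctan √(P(x) / N(x))` -/
noncomputable def angle {s : ℕ} (c : Fin s → ℝ) (f : Fin s → ℝ[X]) (x : ℝ) : ℝ :=
  Real.arctan √((posPart c f).eval x / (negPart c f).eval x)

theorem result (s : ℕ) (c : Fin s → ℝ) (f : Fin s → ℝ[X]) :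
    -- the pencil contains the given sum of squares
    (member c f 1 = ∑ i, C (c i) * f i ^ 2 ∧ (exponents f).card ≤ ∑ i, (f i).support.card) ∧
    -- (1) the average number of real roots
    (∃ F : ℝ → ℝ≥0∞, Measurable F ∧ (∀ t, (realRoots (member c f t) : ℝ≥0∞) ≤ F t) ∧
      ∫⁻ t : ℝ, F t * ENNReal.ofReal ((Real.pi * (1 + t ^ 2))⁻¹) ≤ 10 * ((exponents f).card : ℝ≥0∞)) ∧
    -- (2) almost all members have few real roots
    (∀ κ T : ℝ, 0 < κ →
      volume {t | t ∈ Set.Icc 0 T ∧ κ * (exponents f).card < realRoots (member c f t)}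
        ≤ ENNReal.ofReal (10 * Real.pi * (1 + T ^ 2) / κ)) ∧
    -- (3) the total variation
    (∀ x : ℕ → ℝ, StrictMono x → ∀ n : ℕ, (∀ j ≤ n, 0 < (negPart c f).eval (x j)) →
      ∑ j ∈ Finset.range n, |angle c f (x (j + 1)) - angle c f (x j)|
        ≤ 4 * Real.pi * (exponents f).card) ∧
    -- (4) robust sign changes
    (∀ δ : ℝ, 0 < δ → δ ≤ 1 → ∀ x : ℕ → ℝ, StrictMono x → ∀ n : ℕ,
      (∀ j ≤ n, 0 < (negPart c f).eval (x j)) →
      (∀ j ≤ n, Even j → δ * (negPart c f).eval (x j) ≤ (∑ i, C (c i) * f i ^ 2).eval (x j)) →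
      (∀ j ≤ n, Odd j → (∑ i, C (c i) * f i ^ 2).eval (x j) ≤ 0) →
      (n : ℝ) ≤ 101 * (exponents f).card / δ) := by
  classical
  set M := exponents f with hM
  have hsupp : ∀ (i : Fin s) (a : ℝ), (C a * f i).support ⊆ M := by
    intro i a m hm
    rw [mem_support_iff, coeff_C_mul] at hm
    rw [hM, exponents, Finset.mem_biUnion]
    exact ⟨i, Finset.mem_univ i, mem_support_iff.2 (right_ne_zero_of_mul hm)⟩
  set u : Fin s → ℝ[X] := fun i => C √(max (c i) 0) * f i with hu
  set v : Fin s → ℝ[X] := fun i => C √(max (-c i) 0) * f i with hv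
  have hP : Pool.Agent.TH322.SQ.sq u = posPart c f := by
    refine Finset.sum_congr rfl fun i _ => ?_
    rw [hu]
    simp only
    rw [mul_pow, ← C_pow, Real.sq_sqrt (le_max_right _ _)]
  have hN : Pool.Agent.TH322.SQ.sq v = negPart c f := by
    refine Finset.sum_congr rfl fun i _ => ?_
    rw [hv]
    simp only
    rw [mul_pow, ← C_pow, Real.sq_sqrt (le_max_right _ _)]
  have hmem : ∀ t, Pool.Agent.TH322.SQ.mem u v t = member c f t := by
    intro t
    rw [Pool.Agent.TH322.SQ.mem, hP, hN, member]
  have hone : posPart c f - negPart c f = ∑ i, C (c i) * f i ^ 2 := by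
    rw [posPart, negPart, ← Finset.sum_sub_distrib]
    refine Finset.sum_congr rfl fun i _ => ?_
    rw [← sub_mul, ← C_sub]
    congr 2
    rcases le_total 0 (c i) with h | h
    · rw [max_eq_left h, max_eq_right (by linarith), sub_zero]
    · rw [max_eq_right h, max_eq_left (by linarith)]
      ring
  have heval : ∀ x, (∑ i, C (c i) * f i ^ 2).eval x
      = (posPart c f).eval x - (negPart c f).eval x := by
    intro x
    rw [← hone, eval_sub]
  obtain ⟨F, hF1, hF2, hF3⟩ := Pool.Agent.TH322.SQ.main_avg u v M (fun i => hsupp i _)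
    (fun i => hsupp i _)
  rw [Pool.Agent.TH322.SQ.nu_lint F hF1] at hF3
  have hF2' : ∀ t, (realRoots (member c f t) : ℝ≥0∞) ≤ F t := by
    intro t
    have := hF2 t
    rw [hmem] at this
    exact this
  refine ⟨⟨?_, Finset.card_biUnion_le⟩, ⟨F, hF1, hF2', hF3⟩, ?_, ?_, ?_⟩
  · rw [member, ← hone, one_pow, C_1, one_mul]
  · intro κ T hκ
    rcases Nat.eq_zero_or_pos M.card with h0 | h0
    · have h1 : {t : ℝ | t ∈ Set.Icc 0 T ∧ κ * M.card < realRoots (member c f t)} = ∅ := by
        have h2 : ∀ i, f i = 0 := by
          intro i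
          rw [← support_eq_empty]
          have h3 : (f i).support ⊆ M := by
            have := hsupp i 1
            rwa [C_1, one_mul] at this
          have h4 := Finset.card_le_card h3
          rw [h0] at h4
          exact Finset.card_eq_zero.1 (Nat.le_zero.1 h4)
        have h5 : ∀ t, member c f t = 0 := by
          intro t
          rw [member, posPart, negPart]
          simp [h2]
        ext t
        simp [h5, realRoots, h0]
      rw [h1, measure_empty]
      exact zero_le
    · set w : ℝ → ℝ≥0∞ := fun t => F t * ENNReal.ofReal ((Real.pi * (1 + t ^ 2))⁻¹) with hw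
      have hwm : Measurable w := by
        refine hF1.mul (ENNReal.measurable_ofReal.comp ?_)
        fun_prop
      set ε : ℝ := κ * M.card * (Real.pi * (1 + T ^ 2))⁻¹ with hε
      have hMc : (0 : ℝ) < M.card := by exact_mod_cast h0
      have hε0 : 0 < ε := by positivity
      have h1 : {t : ℝ | t ∈ Set.Icc 0 T ∧ κ * M.card < realRoots (member c f t)}
          ⊆ {t | ENNReal.ofReal ε ≤ w t} := by
        rintro t ⟨⟨ht0, htT⟩, ht⟩
        show ENNReal.ofReal ε ≤ F t * ENNReal.ofReal ((Real.pi * (1 + t ^ 2))⁻¹)
        have h2 : ENNReal.ofReal (κ * M.card) ≤ F t := by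
          refine le_trans ?_ (hF2' t)
          rw [← ENNReal.ofReal_natCast]
          exact ENNReal.ofReal_le_ofReal ht.le
        rw [hε, ENNReal.ofReal_mul (by positivity)]
        refine mul_le_mul' h2 (ENNReal.ofReal_le_ofReal ?_)
        refine inv_anti₀ (by positivity) ?_
        have : t ^ 2 ≤ T ^ 2 := by nlinarith
        nlinarith [Real.pi_pos]
      have h2 := mul_meas_ge_le_lintegral (μ := volume) hwm (ENNReal.ofReal ε)
      have h3 : ENNReal.ofReal ε *
          volume {t : ℝ | t ∈ Set.Icc 0 T ∧ κ * M.card < realRoots (member c f t)}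
          ≤ 10 * (M.card : ℝ≥0∞) :=
        (mul_le_mul_right (measure_mono h1) _).trans (h2.trans hF3)
      have h4 : volume {t : ℝ | t ∈ Set.Icc 0 T ∧ κ * M.card < realRoots (member c f t)}
          ≤ 10 * (M.card : ℝ≥0∞) / ENNReal.ofReal ε := by
        rw [ENNReal.le_div_iff_mul_le (Or.inl (by simpa using hε0)) (Or.inl ENNReal.ofReal_ne_top),
          mul_comm]
        exact h3
      refine h4.trans (le_of_eq ?_)
      have h5 : (10 * (M.card : ℝ≥0∞)) = ENNReal.ofReal (10 * M.card) := by
        rw [ENNReal.ofReal_mul (by norm_num), ENNReal.ofReal_natCast]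
        norm_num
      rw [h5, ← ENNReal.ofReal_div_of_pos hε0]
      congr 1
      rw [hε]
      field_simp
  · intro x hx n hNp
    have h1 := Pool.Agent.TH322.SQ.tv_le u v M (fun i => hsupp i _) (fun i => hsupp i _) x hx n
      (by rw [hN]; exact hNp)
    rw [hP, hN] at h1
    exact h1
  · intro δ h0 h1 x hx n hNp he ho
    refine Pool.Agent.TH322.SQ.robust_le u v M (fun i => hsupp i _) (fun i => hsupp i _) δ h0 h1 x hx n
      (by rw [hN]; exact hNp) ?_ ?_
    · intro j hj hev
      rw [hP, hN]
      have h2 := he j hj hev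
      rw [heval] at h2
      linarith
    · intro j hj hodd
      rw [hP, hN]
      have h2 := ho j hj (Nat.not_even_iff_odd.1 hodd)
      rw [heval] at h2
      linarith

end Pool.Agent.Results.MP_5180ba_lc.PencilsOfSquares
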