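import Pool.Agent.TH990.SOS.Main

/-!
# Separated real roots of sums of squares without strong cancellation

Let `F = ∑ i, c i * f i ^ 2` with `s` squares and all supports in `A`, and suppose that no
coefficient of `F` is smaller by a factor of more than `K` than one of the terms
`∑ i, c i * (f i).coeff a * (f i).coeff b` which make it up.  Then at most `s * |A| - 1` real roots
of `F` have absolute values which differ by factors of at least
`(|A|² + 1)² (s |A| K + 1) ^ (2 |A|²)`.  If the sums of two elements of `A` are distinct (Sidon),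
this holds with `K = 1`, for all coefficients.
-/

set_option autoImplicit false

namespace Pool.Agent.Results.MP_5180ba_lc.SeparatedRoots

open Polynomial

theorem result (s : ℕ) (A : Finset ℕ) (c : Fin s → ℝ) (f : Fin s → ℝ[X])
    (hf : ∀ i, (f i).support ⊆ A) (hF : ∑ i, C (c i) * f i ^ 2 ≠ 0) :
    (∀ K : ℝ, 0 ≤ K →
      (∀ a b : ℕ, |∑ i, c i * (f i).coeff a * (f i).coeff b| ≤
        K * |(∑ i, C (c i) * f i ^ 2).coeff (a + b)|) →
      ∀ (N : ℕ) (y : Fin N → ℝ), (∀ i, y i ≠ 0) →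
      (∀ i, (∑ i, C (c i) * f i ^ 2).IsRoot (y i)) →
      (∀ i j, i < j →
        ((A.card : ℝ) ^ 2 + 1) ^ 2 * (s * A.card * K + 1) ^ (2 * A.card ^ 2) * |y i| ≤ |y j|) →
      N + 1 ≤ s * A.card) ∧
    ((∀ a ∈ A, ∀ b ∈ A, ∀ a' ∈ A, ∀ b' ∈ A, a + b = a' + b' →
        (a = a' ∧ b = b') ∨ (a = b' ∧ b = a')) →
      ∀ (N : ℕ) (y : Fin N → ℝ), (∀ i, y i ≠ 0) →
      (∀ i, (∑ i, C (c i) * f i ^ 2).IsRoot (y i)) →
      (∀ i j, i < j →
        ((A.card : ℝ) ^ 2 + 1) ^ 2 * (s * A.card + 1) ^ (2 * A.card ^ 2) * |y i| ≤ |y j|) →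
      N + 1 ≤ s * A.card) := by
  refine ⟨fun K hK hNC N y hy0 hroot hsep => ?_, fun hA N y hy0 hroot hsep => ?_⟩
  · exact TH990.SOS.main s A K hK c f hf hNC hF N y hy0 hroot hsep
  · refine TH990.SOS.main s A 1 zero_le_one c f hf (fun a b => ?_) hF N y hy0 hroot
      (fun i j hij => ?_)
    · rw [one_mul]
      exact TH990.SOS.sidon_nc c f A hA hf a b
    · rw [mul_one]
      exact hsep i j hij

end Pool.Agent.Results.MP_5180ba_lc.SeparatedRoots
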